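import Pool.Agent.H87.LUY.Stmts

/-!
Project LU, part Y: the lower bound for the determinant of the matrix `Xi`.
-/

set_option autoImplicit false
set_option linter.unusedVariables false

open scoped BigOperators Topology

noncomputable section

namespace Pool.LU.FK

theorem xie_neg_ne (x : SV) : (fun i => - x.1 i) ≠ 0 := by
  intro h
  apply x.2
  funext i
  have := congrFun h i
  simpa using this

/-- the antipode of `x`, or `x` -/
def xieT (t : Bool) (x : SV) : SV := if t = true then x else ⟨fun i => - x.1 i, xie_neg_ne x⟩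

theorem xieT_T (t : Bool) (x : SV) : xieT t (xieT t x) = x := by
  revert t x; decide +kernel

theorem xieT_inj (t : Bool) : Function.Injective (xieT t) := by
  intro x y h
  rw [← xieT_T t x, h, xieT_T]

theorem xieT_nz (t : Bool) (x : SV) : nz (xieT t x) = nz x := by
  revert t x; decide +kernel

theorem xieT_adj : ∀ (t : Bool) (x y : SV), sadj (xieT t x) (xieT t y) ↔ sadj x y := by
  decide +kernel

/-- the corners with `par = true` different from `v1` -/
def xieC (k : Fin 3) : SV := ⟨fun i => if i = k then 1 else -1, by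
  intro h
  have h1 := congrFun h k
  simp at h1⟩

theorem xieC_spec : ∀ (t : Bool) (k : Fin 3), nz (xieT t (xieC k)) = 0 ∧ xieT t (xieC k) ≠ v1 ∧
    xieT t (xieC k) ≠ v2 ∧ par (xieT t (xieC k)) = t := by
  decide +kernel

theorem xieC_inj : ∀ k k' : Fin 3, xieC k = xieC k' → k = k' := by
  decide +kernel

theorem xieC_ex : ∀ a : SV, (nz a = 0 ∧ a ≠ v1 ∧ a ≠ v2) →
    ∃ k : Fin 3, a = xieT (par a) (xieC k) := by
  decide +kernel

/-- the incidence matrix of the complete graph with four vertices without one row -/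
def xieZ (k : Fin 3) (f : SV) : ℤ :=
  if sadj (xieC k) f then (if f.1 (k + 1) = -1 then -1 else 1) else 0

theorem xieZ_mul : ∀ (k k' : Fin 3) (f : SV), nz f = 2 → xieZ k f * xieZ k' f =
    if sadj (xieC k) f ∧ sadj (xieC k') f then (if k = k' then 1 else -1) else 0 := by
  decide +kernel

theorem xieZ_sum : ∀ (k k' : Fin 3), ∑ f : {f : SV // nz f = 2}, xieZ k f.1 * xieZ k' f.1 =
    if k = k' then 3 else -1 := by
  decide +kernel

theorem xieZ_sq : ∀ f : {f : SV // nz f = 2}, ∑ k, (xieZ k f.1) ^ 2 + (∑ k, xieZ k f.1) ^ 2 = 2 := by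
  decide +kernel

theorem xieF_card : Fintype.card {f : SV // nz f = 2} = 6 := by
  decide +kernel

variable {Y : YSet} {l : ℕ}

/-- the parity of the level -/
def xieO (L : Lvl Y l) (y : Y.X) : Bool := decide ((L.ν y).val % 2 = 1)

theorem xieO_st (L : Lvl Y l) (v : SV) (hv : nz v = 2) (y : Y.X) :
    xieO L (Y.ρ v y) = xieO L y := by
  unfold xieO
  rw [L.st v y (by omega)]

theorem xieO_chi (L : Lvl Y l) (v : SV) (hv : nz v = 0) (y : Y.X) :
    Y.χ v y = 1 ↔ par v = xieO L y := by
  rw [L.odd v y hv]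
  unfold xieO
  by_cases h : (L.ν y).val % 2 = 1
  · simp [h]
  · simp [h]

/-- the involutions of the faces, twisted by the parity of the level -/
def xieR (L : Lvl Y l) (f : {f : SV // nz f = 2}) (y : Y.X) : Y.X := Y.ρ (xieT (xieO L y) f.1) y

theorem xieO_R (L : Lvl Y l) (f : {f : SV // nz f = 2}) (y : Y.X) :
    xieO L (xieR L f y) = xieO L y := by
  unfold xieR
  rw [xieO_st L _ (by rw [xieT_nz]; exact f.2)]

theorem xieR_R (L : Lvl Y l) (f : {f : SV // nz f = 2}) (y : Y.X) :
    xieR L f (xieR L f y) = y := by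
  have h : xieR L f (xieR L f y) = Y.ρ (xieT (xieO L (xieR L f y)) f.1) (xieR L f y) := rfl
  rw [h, xieO_R]
  unfold xieR
  rw [Y.ρρ]

theorem xie_fold (L : Lvl Y l) (w : List {f : SV // nz f = 2}) :
    ∀ (y : Y.X) (t : Bool), xieO L y = t → w.foldl (fun q f => xieR L f q) y =
      (w.map (fun f => xieT t f.1)).foldl (fun q f => Y.ρ f q) y := by
  induction w with
  | nil => intro y t _; rfl
  | cons f w ih =>
    intro y t ht
    have h1 : xieO L (xieR L f y) = t := (xieO_R L f y).trans ht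
    have h2 : xieR L f y = Y.ρ (xieT t f.1) y := by unfold xieR; rw [ht]
    rw [List.foldl_cons, List.map_cons, List.foldl_cons, ih _ t h1, h2]

theorem xie_free (L : Lvl Y l) (M : ℕ) (hF : FreeW Y.ρ M) (w : List {f : SV // nz f = 2})
    (h0 : w ≠ []) (h1 : w.length < M) (h2 : w.IsChain (· ≠ ·)) (q : Y.X) :
    w.foldl (fun q f => xieR L f q) q ≠ q := by
  rw [xie_fold L w q _ rfl]
  apply hF
  · intro h3
    exact h0 (List.map_eq_nil_iff.1 h3)
  · rw [List.length_map]; exact h1
  · intro f hf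
    obtain ⟨g, _, rfl⟩ := List.mem_map.1 hf
    rw [xieT_nz]
    exact g.2
  · rw [List.isChain_map]
    refine h2.imp ?_
    intro a b hab h3
    exact hab (Subtype.ext (xieT_inj _ h3))

/-- the cell with given index -/
def xieG (L : Lvl Y l) (p : Fin 3 × Y.X) : CC Y :=
  ⟨(xieT (xieO L p.2) (xieC p.1), p.2), by
    have h := xieC_spec (xieO L p.2) p.1
    exact ⟨⟨h.1, h.2.1, h.2.2.1⟩, (xieO_chi L _ h.1 p.2).2 h.2.2.2⟩⟩

theorem xieG_bij (L : Lvl Y l) : Function.Bijective (xieG L) := by
  constructor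
  · rintro ⟨k, y⟩ ⟨k', y'⟩ h
    have h1 : (xieT (xieO L y) (xieC k), y) = (xieT (xieO L y') (xieC k'), y') :=
      congrArg Subtype.val h
    have h2 : y = y' := congrArg Prod.snd h1
    subst h2
    have h3 : xieT (xieO L y) (xieC k) = xieT (xieO L y) (xieC k') := congrArg Prod.fst h1
    have h4 := xieC_inj _ _ (xieT_inj _ h3)
    rw [h4]
  · rintro ⟨⟨a, y⟩, ⟨h1, h2⟩⟩
    obtain ⟨k, hk⟩ := xieC_ex a h1
    refine ⟨(k, y), ?_⟩
    apply Subtype.ext
    show (xieT (xieO L y) (xieC k), y) = (a, y)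
    rw [← (xieO_chi L a h1.1 y).1 h2, ← hk]

theorem xie_entry0 (L : Lvl Y l) (k k' : Fin 3) (y y' : Y.X) (h : xieO L y ≠ xieO L y') :
    Xi Y (xieG L (k, y)) (xieG L (k', y')) = 0 := by
  unfold Xi
  rw [Matrix.of_apply]
  apply Finset.sum_eq_zero
  intro f _
  rw [if_neg]
  rintro ⟨_, _, _, h4⟩
  have h5 : par (xieT (xieO L y) (xieC k)) = par (xieT (xieO L y') (xieC k')) := h4
  rw [(xieC_spec _ _).2.2.2, (xieC_spec _ _).2.2.2] at h5
  exact h h5

theorem xie_entry1 (L : Lvl Y l) (k k' : Fin 3) (y y' : Y.X) (h : xieO L y = xieO L y') :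
    Xi Y (xieG L (k, y)) (xieG L (k', y')) =
    ∑ f : {f : SV // nz f = 2}, ((xieZ k f.1 : ℤ) : ℝ) * ((xieZ k' f.1 : ℤ) : ℝ) *
      ((if y' = y then 1 else 0) - (if y' = xieR L f y then 1 else 0)) := by
  have e1 : Xi Y (xieG L (k, y)) (xieG L (k', y')) =
      ∑ f : SV, if nz f = 2 ∧ sadj (xieT (xieO L y) (xieC k)) f ∧
        sadj (xieT (xieO L y') (xieC k')) f ∧
        par (xieT (xieO L y) (xieC k)) = par (xieT (xieO L y') (xieC k')) then
        (if xieT (xieO L y) (xieC k) = xieT (xieO L y') (xieC k') then 1 else -1) *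
          df Y f y y' else 0 := rfl
  rw [e1, ← h]
  have e2 : (∑ f : SV, if nz f = 2 ∧ sadj (xieT (xieO L y) (xieC k)) f ∧
        sadj (xieT (xieO L y) (xieC k')) f ∧
        par (xieT (xieO L y) (xieC k)) = par (xieT (xieO L y) (xieC k')) then
        (if xieT (xieO L y) (xieC k) = xieT (xieO L y) (xieC k') then (1 : ℝ) else -1) *
          df Y f y y' else 0) = ∑ f : SV, if nz f = 2 then
        ((xieZ k f : ℤ) : ℝ) * ((xieZ k' f : ℤ) : ℝ) * df Y (xieT (xieO L y) f) y y' else 0 := by
    have hinv : Function.Involutive (xieT (xieO L y)) := xieT_T (xieO L y)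
    rw [← Equiv.sum_comp (Function.Involutive.toPerm _ hinv)]
    apply Finset.sum_congr rfl
    intro f _
    rw [Function.Involutive.coe_toPerm, xieT_nz]
    by_cases hf : nz f = 2
    · rw [if_pos hf, ← Int.cast_mul, xieZ_mul k k' f hf]
      have a1 := xieT_adj (xieO L y) (xieC k) f
      have a2 := xieT_adj (xieO L y) (xieC k') f
      have a3 : par (xieT (xieO L y) (xieC k)) = par (xieT (xieO L y) (xieC k')) := by
        rw [(xieC_spec _ _).2.2.2, (xieC_spec _ _).2.2.2]
      have g : (xieT (xieO L y) (xieC k) = xieT (xieO L y) (xieC k')) ↔ (k = k') := by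
        constructor
        · intro h3
          exact xieC_inj _ _ (xieT_inj _ h3)
        · intro h3
          rw [h3]
      by_cases h4 : sadj (xieC k) f ∧ sadj (xieC k') f
      · rw [if_pos ⟨hf, a1.2 h4.1, a2.2 h4.2, a3⟩, if_pos h4]
        by_cases h5 : k = k'
        · rw [if_pos (g.2 h5), if_pos h5]
          simp
        · rw [if_neg (fun h6 => h5 (g.1 h6)), if_neg h5]
          simp
      · rw [if_neg (fun h5 => h4 ⟨a1.1 h5.2.1, a2.1 h5.2.2.1⟩), if_neg h4]
        simp
    · rw [if_neg (fun h5 => hf h5.1), if_neg hf]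
  rw [e2, ← Finset.sum_filter, Finset.sum_subtype (p := fun f : SV => nz f = 2) _ (by simp)]
  apply Finset.sum_congr rfl
  intro f _
  rfl

theorem xie_entry (L : Lvl Y l) (k k' : Fin 3) (y y' : Y.X) :
    Xi Y (xieG L (k, y)) (xieG L (k', y')) =
    ∑ f : {f : SV // nz f = 2}, ((xieZ k f.1 : ℤ) : ℝ) * ((xieZ k' f.1 : ℤ) : ℝ) *
      ((if y' = y then 1 else 0) - (if y' = xieR L f y then 1 else 0)) := by
  by_cases h : xieO L y = xieO L y'
  · exact xie_entry1 L k k' y y' h
  · rw [xie_entry0 L k k' y y' h]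
    symm
    apply Finset.sum_eq_zero
    intro f _
    rw [if_neg, if_neg]
    · ring
    · rintro rfl
      exact h (xieO_R L f y).symm
    · rintro rfl
      exact h rfl

theorem xie (h : STXStmt) : XIEStmt := by
  intro Y l L M s η hl hM hF hs hs1 hη
  have key := h Y.X {f : SV // nz f = 2} (Fin 3) (xieR L) (fun k f => ((xieZ k f.1 : ℤ) : ℝ)) s η M
    (xieR_R L) ?_ xieF_card (by decide) ?_ ?_ hs hs1 hη (by omega) (xie_free L M hF)
  · have hdet : (Xi Y + (2 * η) • (1 : Matrix (CC Y) (CC Y) ℝ)).det =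
        (Matrix.of (fun p q : Fin 3 × Y.X => ∑ f : {f : SV // nz f = 2},
          ((xieZ p.1 f.1 : ℤ) : ℝ) * ((xieZ q.1 f.1 : ℤ) : ℝ) *
          ((if q.2 = p.2 then 1 else 0) - (if q.2 = xieR L f p.2 then 1 else 0))) +
        (2 * η) • (1 : Matrix (Fin 3 × Y.X) (Fin 3 × Y.X) ℝ)).det := by
      rw [← Matrix.det_submatrix_equiv_self (Equiv.ofBijective (xieG L) (xieG_bij L))]
      congr 1
      ext p q
      rw [Matrix.submatrix_apply, Matrix.add_apply, Matrix.add_apply, Matrix.smul_apply,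
        Matrix.smul_apply, Matrix.of_apply, Matrix.one_apply, Matrix.one_apply]
      have e1 := xie_entry L p.1 q.1 p.2 q.2
      rw [Equiv.ofBijective_apply, Equiv.ofBijective_apply]
      congr 1
      by_cases hpq : p = q
      · rw [if_pos hpq, if_pos (by rw [hpq])]
      · rw [if_neg hpq, if_neg (fun h5 => hpq ((xieG_bij L).1 h5))]
    rw [hdet]
    refine le_trans (le_of_eq ?_) key
    have e2 : (2 : ℝ) ^ (Fintype.card Y.X) = Real.exp ((Fintype.card Y.X : ℝ) * Real.log 2) := by
      rw [Real.exp_nat_mul, Real.exp_log (by norm_num)]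
    rw [e2, ← Real.exp_add]
    congr 1
  · intro f q
    have := xie_free L M hF [f] (by simp) (by simp; omega) (by simp) q
    exact this
  · intro k k'
    have e3 := congrArg (Int.cast : ℤ → ℝ) (xieZ_sum k k')
    push_cast at e3
    exact e3
  · intro f
    have e3 := congrArg (Int.cast : ℤ → ℝ) (xieZ_sq f)
    push_cast at e3
    exact e3

end Pool.LU.FK
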