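import Pool.Agent.H87.LUY.Stmts

/-!
Project LU, part Y: the block of the pairs (edge, face) in degree 3.
-/

set_option autoImplicit false
set_option linter.unusedVariables false

open scoped BigOperators Topology

noncomputable section

namespace Pool.LU.FK

theorem zztCorner_ex : ∀ (b : SV) (t : Bool), nz b = 1 →
    ∃ a : SV, nz a = 0 ∧ sadj a b ∧ par a = t := by
  decide +kernel

theorem zztCorner_un : ∀ (b a a' : SV), (nz b = 1 ∧ nz a = 0 ∧ nz a' = 0 ∧ sadj a b ∧ sadj a' b ∧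
    par a = par a') → a = a' := by
  decide +kernel

theorem zztCorner_c : ∀ (a b c : SV), (nz a = 0 ∧ nz b = 1 ∧ nz c = 2 ∧ sadj a b ∧ sadj b c) →
    sadj a c := by
  decide +kernel

theorem zzt_symm {a b : SV} (h : sadj a b) : sadj b a := ⟨h.1.symm, h.2.symm⟩

/-- the corner next to the edge `b` with given parity -/
def zztC (t : Bool) (b : SV) : SV := if h : nz b = 1 then (zztCorner_ex b t h).choose else v1

theorem zztC_spec (t : Bool) (b : SV) (h : nz b = 1) :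
    nz (zztC t b) = 0 ∧ sadj (zztC t b) b ∧ par (zztC t b) = t := by
  unfold zztC
  rw [dif_pos h]
  exact (zztCorner_ex b t h).choose_spec

variable {Y : YSet}

/-- the involution on the cells (edge, face) -/
def zztR (t : Bool) (i : C2b Y) : C2b Y :=
  ⟨(i.1.1, Y.ρ (zztC t i.1.1.1) i.1.2), i.2.1, by
    have h := zztC_spec t i.1.1.1 i.2.1.1
    have h1 : sadj i.1.1.1 i.1.1.2 := i.2.1.2.2
    have h2 : sadj (zztC t i.1.1.1) i.1.1.2 :=
      zztCorner_c _ _ _ ⟨h.1, i.2.1.1, i.2.1.2.1, h.2.1, h1⟩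
    refine ⟨?_, ?_⟩
    · show Y.χ i.1.1.1 (Y.ρ (zztC t i.1.1.1) i.1.2) = 1
      rw [Y.χ_adj _ _ (zzt_symm h.2.1)]
      exact i.2.2.1
    · show Y.χ i.1.1.2 (Y.ρ (zztC t i.1.1.1) i.1.2) = 1
      rw [Y.χ_adj _ _ (zzt_symm h2)]
      exact i.2.2.2⟩

theorem zztR_R (t : Bool) (i : C2b Y) : zztR t (zztR t i) = i := by
  apply Subtype.ext
  show (i.1.1, Y.ρ (zztC t i.1.1.1) (Y.ρ (zztC t i.1.1.1) i.1.2)) = i.1
  rw [Y.ρρ]

theorem zzt_ne (v : SV) (y : Y.X) : y ≠ Y.ρ v y := by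
  intro h
  have h1 := Y.χ_self v y
  rw [← h] at h1
  have h2 : (Y.χ v y : ℤˣ) ≠ - Y.χ v y := by
    rcases Int.units_eq_one_or (Y.χ v y) with h3 | h3 <;> rw [h3] <;> decide
  exact h2 h1

theorem zzt_unit (u : ℤˣ) (h : u ≠ 1) : u = -1 := (Int.units_eq_one_or u).resolve_left h

theorem zzt_chi (v : SV) (y : Y.X) (h : Y.χ v y ≠ 1) : Y.χ v (Y.ρ v y) = 1 := by
  rw [Y.χ_self, zzt_unit _ h]
  rfl

/-- the representative of the orbit with sign 1 -/
def zztY (v : SV) (y : Y.X) : Y.X := if Y.χ v y = 1 then y else Y.ρ v y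

theorem zztY_chi (v : SV) (y : Y.X) : Y.χ v (zztY v y) = 1 := by
  unfold zztY
  split_ifs with h
  · exact h
  · exact zzt_chi v y h

theorem zztY_adj (v u : SV) (h : sadj u v) (y : Y.X) : Y.χ u (zztY v y) = Y.χ u y := by
  unfold zztY
  split_ifs with h1
  · rfl
  · exact Y.χ_adj u v h y

/-- the product of two entries of the coboundary -/
theorem zzt_df (v : SV) (y z : Y.X) : df Y v (zztY v y) y * df Y v (zztY v y) z =
    (if z = y then 1 else 0) - (if z = Y.ρ v y then 1 else 0) := by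
  unfold zztY
  by_cases h : Y.χ v y = 1
  · rw [if_pos h]
    unfold df
    rw [if_pos rfl, if_neg (zzt_ne v y)]
    ring
  · rw [if_neg h]
    unfold df
    rw [if_neg (zzt_ne v y), Y.ρρ, if_pos rfl]
    ring

theorem zzt_df0 (v : SV) (y x : Y.X) (hx : Y.χ v x = 1) (h : x ≠ zztY v y) : df Y v x y = 0 := by
  unfold df
  have h1 : y ≠ x := by
    rintro rfl
    apply h
    unfold zztY
    rw [if_pos hx]
  have h2 : y ≠ Y.ρ v x := by
    rintro rfl
    apply h
    unfold zztY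
    rw [Y.χ_self, hx, Y.ρρ, if_neg (by decide)]
  rw [if_neg h1, if_neg h2, sub_zero]

theorem zzt_d3 (t : C3 Y) (i : C2b Y) : D3 Y t (Sum.inr i) =
    if i.1.1.1 = t.1.1.2.1 ∧ i.1.1.2 = t.1.1.2.2 then df Y t.1.1.1 t.1.2 i.1.2 else 0 := by
  have h1 : i.1.1.1 ≠ t.1.1.1 := by
    intro h
    have h2 := i.2.1.1
    rw [h, t.2.1.1] at h2
    omega
  show d3 Y t.1.1.1 t.1.1.2.1 t.1.1.2.2 t.1.2 i.1.1.1 i.1.1.2 i.1.2 = _
  unfold d3
  rw [if_neg (fun h : i.1.1.1 = t.1.1.1 ∧ i.1.1.2 = t.1.1.2.2 => h1 h.1),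
    if_neg (fun h : i.1.1.1 = t.1.1.1 ∧ i.1.1.2 = t.1.1.2.1 => h1 h.1)]
  ring

/-- the two cells of degree 3 above a cell (edge, face) -/
def zztT (t : Bool) (i : C2b Y) : C3 Y :=
  ⟨((zztC t i.1.1.1, i.1.1.1, i.1.1.2), zztY (zztC t i.1.1.1) i.1.2), by
    have h := zztC_spec t i.1.1.1 i.2.1.1
    have h1 : sadj i.1.1.1 i.1.1.2 := i.2.1.2.2
    have h2 : sadj (zztC t i.1.1.1) i.1.1.2 :=
      zztCorner_c _ _ _ ⟨h.1, i.2.1.1, i.2.1.2.1, h.2.1, h1⟩
    refine ⟨⟨h.1, i.2.1.1, i.2.1.2.1, h.2.1, h1, h2⟩, zztY_chi _ _, ?_, ?_⟩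
    · exact (zztY_adj _ _ (zzt_symm h.2.1) _).trans i.2.2.1
    · exact (zztY_adj _ _ (zzt_symm h2) _).trans i.2.2.2⟩

theorem zztT_ne (i : C2b Y) : zztT true i ≠ zztT false i := by
  intro h
  have h1 : zztC true i.1.1.1 = zztC false i.1.1.1 := congrArg (fun t : C3 Y => t.1.1.1) h
  have h2 := (zztC_spec true i.1.1.1 i.2.1.1).2.2
  have h3 := (zztC_spec false i.1.1.1 i.2.1.1).2.2
  rw [h1, h3] at h2
  exact absurd h2 (by decide)

theorem zzt_zero (t : C3 Y) (i : C2b Y) (h : ∀ p, t ≠ zztT p i) : D3 Y t (Sum.inr i) = 0 := by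
  rw [zzt_d3]
  split_ifs with h1
  · apply zzt_df0 _ _ _ t.2.2.1
    intro h2
    apply h (par t.1.1.1)
    have h3 : t.1.1.1 = zztC (par t.1.1.1) i.1.1.1 := by
      have h4 := zztC_spec (par t.1.1.1) i.1.1.1 i.2.1.1
      apply zztCorner_un i.1.1.1
      refine ⟨i.2.1.1, t.2.1.1, h4.1, ?_, h4.2.1, h4.2.2.symm⟩
      rw [h1.1]
      exact t.2.1.2.2.2.1
    apply Subtype.ext
    apply Prod.ext
    · apply Prod.ext
      · exact h3
      · exact Prod.ext h1.1.symm h1.2.symm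
    · show t.1.2 = zztY (zztC (par t.1.1.1) i.1.1.1) i.1.2
      rw [← h3]
      exact h2
  · rfl

theorem zzt_term (p : Bool) (i j : C2b Y) :
    D3 Y (zztT p i) (Sum.inr i) * D3 Y (zztT p i) (Sum.inr j) =
    (if j = i then 1 else 0) - (if j = zztR p i then (1 : ℝ) else 0) := by
  rw [zzt_d3, zzt_d3]
  have e1 : (zztT p i).1.1.2.1 = i.1.1.1 := rfl
  have e2 : (zztT p i).1.1.2.2 = i.1.1.2 := rfl
  have e3 : (zztT p i).1.1.1 = zztC p i.1.1.1 := rfl
  have e4 : (zztT p i).1.2 = zztY (zztC p i.1.1.1) i.1.2 := rfl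
  rw [e1, e2, e3, e4, if_pos ⟨rfl, rfl⟩]
  by_cases h : j.1.1.1 = i.1.1.1 ∧ j.1.1.2 = i.1.1.2
  · rw [if_pos h, zzt_df]
    have hh : j.1.1 = i.1.1 := Prod.ext h.1 h.2
    have g1 : (j = i) ↔ (j.1.2 = i.1.2) := by
      constructor
      · intro h1; rw [h1]
      · intro h1; exact Subtype.ext (Prod.ext hh h1)
    have g2 : (j = zztR p i) ↔ (j.1.2 = Y.ρ (zztC p i.1.1.1) i.1.2) := by
      constructor
      · intro h1; rw [h1]; rfl
      · intro h1; exact Subtype.ext (Prod.ext hh h1)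
    congr 1
    · simp only [g1]
    · simp only [g2]
  · rw [if_neg h, mul_zero, if_neg, if_neg, sub_zero]
    · intro h1
      apply h
      rw [h1]
      exact ⟨rfl, rfl⟩
    · intro h1
      apply h
      rw [h1]
      exact ⟨rfl, rfl⟩

theorem zzt_ZZ (i j : C2b Y) :
    ∑ t : C3 Y, D3 Y t (Sum.inr i) * D3 Y t (Sum.inr j) =
    ((if j = i then 1 else 0) - (if j = zztR true i then (1 : ℝ) else 0)) +
    ((if j = i then 1 else 0) - (if j = zztR false i then (1 : ℝ) else 0)) := by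
  rw [Fintype.sum_eq_add (zztT true i) (zztT false i) (zztT_ne i)]
  · rw [zzt_term, zzt_term]
  · intro t ht
    rw [zzt_zero t i, zero_mul]
    intro p
    cases p
    · exact ht.2
    · exact ht.1

theorem zzt_lvl {l : ℕ} (L : Lvl Y l) (v : SV) (hv : nz v = 0) (y : Y.X)
    (h : Y.χ v y ≠ 1) : L.ν (Y.ρ v y) = L.ν y + 1 := by
  have h1 := L.dn v (Y.ρ v y) hv (zzt_chi v y h)
  rw [Y.ρρ] at h1
  rw [h1]
  ring

theorem zzt (h : TTLStmt) (h2 : CNTStmt) : ZZTStmt := by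
  intro Y l L r δ hl hr hr1 hδ hδr
  have key := h (C2b Y) (zztR true) (zztR false) l (fun i => L.ν i.1.2) r δ hl (zztR_R true)
    (zztR_R false) ?_ ?_ hr hr1 hδ hδr
  · have hc := (h2 Y).2.2.2.1
    have e : gd δ (Matrix.of fun (i : C2b Y) (j : C3 Y) => D3 Y j (Sum.inr i)) =
        (Matrix.of (fun y y' : C2b Y =>
        ((if y' = y then 1 else 0) - (if y' = zztR true y then 1 else 0)) +
        ((if y' = y then 1 else 0) - (if y' = zztR false y then (1 : ℝ) else 0))) +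
        δ • (1 : Matrix (C2b Y) (C2b Y) ℝ)).det := by
      unfold gd
      congr 2
      ext i j
      rw [Matrix.mul_apply]
      exact zzt_ZZ i j
    rw [e]
    refine key.trans (le_of_eq ?_)
    rw [hc]
    congr 2
    push_cast
    ring
  · intro i hi
    have h1 := zztC_spec true i.1.1.1 i.2.1.1
    have h3 := zztC_spec false i.1.1.1 i.2.1.1
    constructor
    · apply L.dn _ _ h1.1
      rw [L.odd _ _ h1.1, h1.2.2]
      exact ⟨fun _ => rfl, fun _ => hi⟩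
    · apply zzt_lvl L _ h3.1
      rw [Ne, L.odd _ _ h3.1, h3.2.2]
      intro h4
      exact absurd (h4.1 hi) (by decide)
  · intro i hi
    have hi' : (L.ν i.1.2).val % 2 = 0 := hi
    have h1 := zztC_spec true i.1.1.1 i.2.1.1
    have h3 := zztC_spec false i.1.1.1 i.2.1.1
    constructor
    · apply zzt_lvl L _ h1.1
      rw [Ne, L.odd _ _ h1.1, h1.2.2]
      intro h4
      have := h4.2 rfl
      omega
    · apply L.dn _ _ h3.1
      rw [L.odd _ _ h3.1, h3.2.2]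
      constructor
      · intro h4; omega
      · intro h4; exact absurd h4 (by decide)

end Pool.LU.FK
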